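import Mathlib
import Pool.Agent.H48.Pan

set_option autoImplicit false

namespace Pool.Agent.Results.MP_28b5ac_nt.Proof

open Filter Real

/- Number of distinct primes dividing |m|; it is 0 for m = 0. -/
def omega (m : ℤ) : ℕ := m.natAbs.primeFactors.card

def IsGood (K ε x : ℝ) (n : ℤ) : Prop :=
  ∀ a j k h : ℕ, 2 ≤ a → (a : ℝ) ≤ K → 1 ≤ j → (j : ℝ) ≤ K → 1 ≤ k → (k : ℝ) ≤ K →
    (h : ℝ) ≤ K * Real.log x →
    (Real.log (Real.log x)) ^ (1 - ε) ≤ (omega (n * j + (a : ℤ) ^ h * k) : ℝ) ∧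
    (Real.log (Real.log x)) ^ (1 - ε) ≤ (omega (n * j - (a : ℤ) ^ h * k) : ℝ)

lemma ev (C θ : ℝ) (hC : 0 ≤ C) (hθ : 0 < θ) :
    ∀ᶠ y : ℝ in atTop, 1 ≤ y ∧ 1 ≤ log y ∧ C * y ^ (1 - θ) * log y ≤ y := by
  have h := (isLittleO_log_rpow_atTop hθ).bound (c := 1 / (C + 1)) (by positivity)
  filter_upwards [h, eventually_ge_atTop 1, tendsto_log_atTop.eventually_ge_atTop 1]
    with y h1 h2 h3
  refine ⟨h2, h3, ?_⟩
  have hy : 0 < y := by linarith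
  rw [Real.norm_of_nonneg (by linarith), Real.norm_of_nonneg (by positivity)] at h1
  have e : y ^ (1 - θ) * y ^ θ = y := by rw [← rpow_add hy]; simp
  have h4 : C * log y ≤ y ^ θ := by
    calc C * log y ≤ (C + 1) * log y := by nlinarith
      _ ≤ (C + 1) * (1 / (C + 1) * y ^ θ) := by gcongr
      _ = y ^ θ := by field_simp
  calc C * y ^ (1 - θ) * log y = y ^ (1 - θ) * (C * log y) := by ring
    _ ≤ y ^ (1 - θ) * y ^ θ := by gcongr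
    _ = y := e

lemma system (K ε : ℝ) (hK : 2 ≤ K) (h0 : 0 < ε) (h1 : ε < 1) (κ : ℕ) (hκ : 1 ≤ κ)
    (D : Finset H48.Pan.Tp) (hD : ∀ t ∈ D, H48.Pan.Adm κ t) :
    ∀ᶠ y : ℝ in atTop, ∃ B, H48.Pan.Good B ∧ ((∏ x ∈ B, x.1 : ℕ) : ℝ) ≤ exp (ε / 2 * y) ∧
      ∀ t ∈ D, ∀ h ≤ ⌊K * y⌋₊, ⌈(log y) ^ (1 - ε)⌉₊ ≤ H48.Pan.cnt B t h := by
  obtain ⟨c, hc⟩ : ∃ c, c = 4 * (D.card + κ + 1) + 6 := ⟨_, rfl⟩
  obtain ⟨T, hT⟩ : ∃ T : ℝ, T = D.card := ⟨_, rfl⟩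
  have hT0 : 0 ≤ T := by rw [hT]; positivity
  have hc1 : (1 : ℝ) ≤ c := by exact_mod_cast (by omega : 1 ≤ c)
  obtain ⟨η, hη⟩ : ∃ η : ℝ, η = 1 / (8 * c) := ⟨_, rfl⟩
  have hη0 : 0 < η := by rw [hη]; positivity
  have hη1 : η ≤ 1 := by rw [hη, div_le_one (by positivity)]; linarith
  obtain ⟨C1, hC1⟩ : ∃ C1 : ℝ, C1 = T * (K + 1) + T + κ + 1 := ⟨_, rfl⟩
  have hC10 : 0 ≤ C1 := by rw [hC1]; positivity
  filter_upwards [ev (C1 + 7) (η / 2) (by positivity) (by positivity),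
    ev ((c * T * κ + 3 * (C1 + 7)) * (2 / ε)) (η / 2) (by positivity) (by positivity),
    tendsto_log_atTop.eventually (ev (8 / η) ε (by positivity) h0)]
    with y ⟨hy1, hl1, a1⟩ ⟨_, _, a2⟩ ⟨_, hll, a3⟩
  have hy : 0 < y := by linarith
  obtain ⟨l, hl⟩ : ∃ l, l = log y := ⟨_, rfl⟩
  rw [← hl] at hl1 a1 a2 a3 hll ⊢
  obtain ⟨P, hP⟩ : ∃ P, P = y ^ (1 - η / 2) := ⟨_, rfl⟩
  rw [← hP] at a1 a2
  have hP1 : 1 ≤ P := hP ▸ one_le_rpow hy1 (by linarith)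
  obtain ⟨R, hR⟩ : ∃ R, R = ⌊y ^ (1 / 4 : ℝ)⌋₊ := ⟨_, rfl⟩
  have hR1 : (R : ℝ) ≤ y ^ (1 / 4 : ℝ) := hR ▸ Nat.floor_le (by positivity)
  have hR2 : y ^ (1 / 4 : ℝ) ≤ R + 1 := hR ▸ (Nat.lt_floor_add_one _).le
  have hR3 : (R : ℝ) * R ≤ P := by
    calc (R : ℝ) * R ≤ y ^ (1 / 4 : ℝ) * y ^ (1 / 4 : ℝ) := by gcongr
      _ = y ^ (1 / 2 : ℝ) := by rw [← rpow_add hy]; norm_num
      _ ≤ P := hP ▸ rpow_le_rpow_of_exponent_le hy1 (by linarith)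
  have hR4 : (R : ℝ) ≤ P := hR1.trans (hP ▸ rpow_le_rpow_of_exponent_le hy1 (by linarith))
  obtain ⟨L, hL⟩ : ∃ L, L = ⌈l ^ (1 - ε)⌉₊ := ⟨_, rfl⟩
  rw [← hL]
  have hq : 1 ≤ l ^ (1 - ε) := one_le_rpow hl1 (by linarith)
  have hL1 : (L : ℝ) ≤ l ^ (1 - ε) + 1 := hL ▸ (Nat.ceil_lt_add_one (by positivity)).le
  have hL2 : 2 * (L : ℝ) ≤ η / 2 * l := by
    have b1 : 8 / η * l ^ (1 - ε) ≤ l := le_trans (le_mul_of_one_le_right (by positivity) hll) a3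
    have b2 : 8 * l ^ (1 - ε) ≤ η * l := by
      calc 8 * l ^ (1 - ε) = η * (8 / η * l ^ (1 - ε)) := by field_simp
        _ ≤ η * l := by gcongr
    linarith
  have hL3 : (L : ℝ) * 2 ^ L ≤ exp (η / 2 * l) := by
    refine le_trans ?_ (exp_le_exp.2 hL2)
    rw [two_mul, exp_add]
    refine mul_le_mul (by linarith [add_one_le_exp (L : ℝ)]) ?_ (by positivity) (by positivity)
    rw [← mul_one (L : ℝ), exp_nat_mul]
    gcongr
    linarith [add_one_le_exp (1 : ℝ)]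
  have hH : ((⌊K * y⌋₊ : ℕ) : ℝ) + 1 ≤ (K + 1) * y := by
    have := Nat.floor_le (show 0 ≤ K * y by positivity)
    linarith
  have hE : exp (-((harmonic R : ℝ) / (2 * c))) ≤ exp (-(η * l)) := by
    rw [exp_le_exp, neg_le_neg_iff]
    have b1 := log_add_one_le_harmonic R
    push_cast at b1
    have b2 : log (y ^ (1 / 4 : ℝ)) ≤ log (R + 1) := log_le_log (by positivity) hR2
    rw [log_rpow hy, ← hl] at b2
    rw [hη, le_div_iff₀ (by positivity)]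
    calc 1 / (8 * (c : ℝ)) * l * (2 * c) = 1 / 4 * l := by field_simp; ring
      _ ≤ _ := by linarith
  have hPe : P = y * (exp (η / 2 * l) * exp (-(η * l))) := by
    rw [hP, rpow_def_of_pos hy, ← hl, ← exp_add]
    conv_rhs => rw [← exp_log hy, ← hl, ← exp_add]
    congr 1; ring
  obtain ⟨m, hm⟩ : ∃ m, m = ⌈C1 * P⌉₊ + 6 := ⟨_, rfl⟩
  have hm1 : C1 * P ≤ m := by
    rw [hm]; push_cast; linarith [Nat.le_ceil (C1 * P)]
  have hm2 : (m : ℝ) ≤ (C1 + 7) * P := by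
    rw [hm]; push_cast
    linarith [Nat.ceil_lt_add_one (show 0 ≤ C1 * P by positivity)]
  obtain ⟨B, g1, g2, g3⟩ := H48.Pan.comb κ ⌊K * y⌋₊ R L m hκ (by omega) D hD c hc (by
    refine le_trans ?_ hm1
    rw [← hT]
    have b1 : (L : ℝ) * (2 ^ L * (T * ((((⌊K * y⌋₊ : ℕ) : ℝ) + 1) *
        exp (-((harmonic R : ℝ) / (2 * c)))))) ≤ T * (K + 1) * P := by
      calc _ = (L : ℝ) * 2 ^ L * (T * ((((⌊K * y⌋₊ : ℕ) : ℝ) + 1) *
            exp (-((harmonic R : ℝ) / (2 * c))))) := by ring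
        _ ≤ exp (η / 2 * l) * (T * (((K + 1) * y) * exp (-(η * l)))) := by gcongr
        _ = _ := by rw [hPe]; ring
    have b2 : (R : ℝ) * T ≤ P * T := by gcongr
    have b3 : (κ : ℝ) + 1 ≤ (κ + 1) * P := le_mul_of_one_le_right (by positivity) hP1
    rw [hC1]
    linarith)
  refine ⟨B, g1, ?_, g3⟩
  have hm0 : (0 : ℝ) < m := by rw [hm]; positivity
  have hκ0 : (0 : ℝ) < κ := by exact_mod_cast hκ
  have g4 : ((∏ x ∈ B, x.1 : ℕ) : ℝ) ≤ ((κ : ℝ) ^ (c * R)) ^ (R * D.card) * ((m : ℝ) ^ 3) ^ m := by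
    exact_mod_cast g2
  refine g4.trans ?_
  rw [← exp_log (x := _ * _) (by positivity), exp_le_exp, log_mul (by positivity) (by positivity),
    log_pow, log_pow, log_pow, log_pow]
  push_cast
  rw [← hT]
  have b1 : log κ ≤ κ := (log_le_sub_one_of_pos hκ0).trans (by linarith)
  have b2 : log m ≤ l := by
    rw [hl]
    refine log_le_log hm0 (hm2.trans (le_trans ?_ a1))
    exact le_mul_of_one_le_right (by positivity) hl1
  have b3 : (R : ℝ) * T * (c * R * log κ) ≤ c * T * κ * P * l := by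
    calc (R : ℝ) * T * (c * R * log κ) ≤ (R : ℝ) * T * (c * R * κ) := by gcongr
      _ = c * T * κ * (R * R) := by ring
      _ ≤ c * T * κ * P := by gcongr
      _ ≤ _ := le_mul_of_one_le_right (by positivity) hl1
  have b4 : (m : ℝ) * (3 * log m) ≤ (C1 + 7) * P * (3 * l) := by
    have : 0 ≤ log (m : ℝ) := log_nonneg (by rw [hm]; push_cast; linarith [Nat.cast_nonneg (α := ℝ) ⌈C1 * P⌉₊])
    gcongr
  have b5 : (c * T * κ + 3 * (C1 + 7)) * P * l ≤ ε / 2 * y := by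
    calc _ = ε / 2 * ((c * T * κ + 3 * (C1 + 7)) * (2 / ε) * P * l) := by field_simp
      _ ≤ _ := by gcongr
  linarith

theorem result (K ε : ℝ) (hK : 2 ≤ K) (h0 : 0 < ε) (h1 : ε < 1) :
    ∃ x0 : ℝ, ∀ x ≥ x0, x ^ (1 - ε) ≤
      (({n : ℤ | x ≤ n ∧ (n : ℝ) ≤ (1 + K⁻¹) * x ∧ IsGood K ε x n}.ncard : ℕ) : ℝ) := by
  obtain ⟨κ, hκ⟩ : ∃ κ, κ = ⌊K⌋₊ := ⟨_, rfl⟩
  have hκ1 : 1 ≤ κ := hκ ▸ Nat.le_floor (by push_cast; linarith)
  obtain ⟨D, hD⟩ : ∃ D : Finset H48.Pan.Tp,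
    D = Finset.Icc 2 κ ×ˢ Finset.Icc 1 κ ×ˢ Finset.Icc (-(κ : ℤ)) κ := ⟨_, rfl⟩
  have hA : ∀ t ∈ D, H48.Pan.Adm κ t := by
    intro t ht
    rw [hD] at ht
    simp only [Finset.mem_product, Finset.mem_Icc] at ht
    exact ⟨ht.1.1, ht.1.2, ht.2.1.1, ht.2.1.2⟩
  obtain ⟨T, hT⟩ : ∃ T : ℝ, T = D.card := ⟨_, rfl⟩
  have hT0 : 0 ≤ T := by rw [hT]; positivity
  rw [← eventually_atTop]
  filter_upwards [tendsto_log_atTop.eventually (system K ε hK h0 h1 κ hκ1 D hA),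
    tendsto_log_atTop.eventually_ge_atTop 1, eventually_gt_atTop 0,
    tendsto_log_atTop.eventually_ge_atTop (16 * K * (2 + T * (K + 1)) / ε ^ 2)]
    with x ⟨B, g1, g2, g3⟩ hy1 hx hy2
  obtain ⟨Q, hQ⟩ : ∃ Q : ℕ, Q = ∏ x ∈ B, x.1 := ⟨_, rfl⟩
  have hQ0 : (0 : ℝ) < Q := by
    rw [hQ]; exact_mod_cast Finset.prod_pos fun x hx => (g1.1 x hx).pos
  obtain ⟨F, f1, f2⟩ := H48.Pan.count κ ⌊K * log x⌋₊ D hA B g1 ⌈x⌉ ⌊x / (K * Q)⌋₊
  rw [← hQ] at f2 g2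
  have hM1 : ((⌊x / (K * Q)⌋₊ : ℕ) : ℝ) ≤ x / (K * Q) := Nat.floor_le (by positivity)
  have hM2 : x / (K * Q) ≤ ((⌊x / (K * Q)⌋₊ : ℕ) : ℝ) + 1 := (Nat.lt_floor_add_one _).le
  have hsub : (F : Set ℤ) ⊆ {n : ℤ | x ≤ n ∧ (n : ℝ) ≤ (1 + K⁻¹) * x ∧ IsGood K ε x n} := by
    intro n hn
    obtain ⟨k1, k2, k3⟩ := f2 n hn
    refine ⟨Int.ceil_le.1 k1, ?_, ?_⟩
    · have k4 : (n : ℝ) + 1 ≤ ⌈x⌉ + Q * ((⌊x / (K * Q)⌋₊ : ℕ) : ℝ) := by exact_mod_cast k2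
      have k5 : (Q : ℝ) * ((⌊x / (K * Q)⌋₊ : ℕ) : ℝ) ≤ K⁻¹ * x := by
        calc _ ≤ (Q : ℝ) * (x / (K * Q)) := by gcongr
          _ = _ := by field_simp
      linarith [Int.ceil_lt_add_one x]
    · intro a j k h ha1 ha2 hj1 hj2 hk1 hk2 hh
      have ha3 : a ≤ κ := hκ ▸ Nat.le_floor ha2
      have hj3 : j ≤ κ := hκ ▸ Nat.le_floor hj2
      have hk3 : k ≤ κ := hκ ▸ Nat.le_floor hk2
      have key : ∀ k' : ℤ, -(κ : ℤ) ≤ k' → k' ≤ κ →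
          (log (log x)) ^ (1 - ε) ≤ (omega (n * j + (a : ℤ) ^ h * k') : ℝ) := by
        intro k' l1 l2
        have ht : ((a, j, k') : H48.Pan.Tp) ∈ D := by
          rw [hD]; simp [ha1, ha3, hj1, hj3, l1, l2]
        have := (g3 _ ht h (Nat.le_floor hh)).trans (k3 _ ht h (Nat.le_floor hh))
        exact Nat.ceil_le.1 this
      refine ⟨key k (by omega) (by omega), ?_⟩
      have := key (-k) (by omega) (by omega)
      rwa [mul_neg, ← sub_eq_add_neg] at this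
  have hfin : {n : ℤ | x ≤ n ∧ (n : ℝ) ≤ (1 + K⁻¹) * x ∧ IsGood K ε x n}.Finite :=
    (Set.finite_Icc ⌈x⌉ ⌊(1 + K⁻¹) * x⌋).subset fun n hn =>
      ⟨Int.ceil_le.2 hn.1, Int.le_floor.2 hn.2.1⟩
  have hle := Set.ncard_le_ncard hsub hfin
  rw [Set.ncard_coe_finset] at hle
  refine le_trans ?_ (Nat.cast_le.2 hle)
  have f3 : ((⌊x / (K * Q)⌋₊ : ℕ) : ℝ) ≤ F.card + T * (((⌊K * log x⌋₊ : ℕ) : ℝ) + 1) := by
    rw [hT]; exact_mod_cast f1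
  obtain ⟨y, hy⟩ : ∃ y, y = log x := ⟨_, rfl⟩
  rw [rpow_def_of_pos hx]
  rw [← hy] at hy1 hy2 g2 f3 ⊢
  have hH : ((⌊K * y⌋₊ : ℕ) : ℝ) + 1 ≤ (K + 1) * y := by
    have := Nat.floor_le (show 0 ≤ K * y by positivity)
    linarith
  have hz : 1 ≤ exp (y * (1 - ε)) := one_le_exp (by nlinarith)
  have hw : K * (2 + T * (K + 1) * y) ≤ exp (ε / 2 * y) := by
    have b1 : ε / 4 * y ≤ exp (ε / 4 * y) := by linarith [add_one_le_exp (ε / 4 * y)]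
    have b2 : exp (ε / 2 * y) = exp (ε / 4 * y) * exp (ε / 4 * y) := by
      rw [← exp_add]; congr 1; ring
    rw [div_le_iff₀ (by positivity)] at hy2
    calc K * (2 + T * (K + 1) * y) ≤ K * (2 * y + T * (K + 1) * y) := by gcongr; linarith
      _ = 16 * K * (2 + T * (K + 1)) * (y / 16) := by ring
      _ ≤ y * ε ^ 2 * (y / 16) := by gcongr
      _ = (ε / 4 * y) * (ε / 4 * y) := by ring
      _ ≤ _ := by rw [b2]; gcongr
  have hx2 : x = exp (y * (1 - ε)) * exp (ε / 2 * y) * exp (ε / 2 * y) := by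
    rw [← exp_add, ← exp_add]
    conv_lhs => rw [← exp_log hx, ← hy]
    congr 1; ring
  have b3 : exp (y * (1 - ε)) * (2 + T * (K + 1) * y) ≤ x / (K * Q) := by
    rw [le_div_iff₀ (by positivity)]
    calc _ = exp (y * (1 - ε)) * (K * (2 + T * (K + 1) * y)) * Q := by ring
      _ ≤ exp (y * (1 - ε)) * exp (ε / 2 * y) * exp (ε / 2 * y) := by gcongr
      _ = x := hx2.symm
  have b4 : T * (((⌊K * y⌋₊ : ℕ) : ℝ) + 1) ≤ T * ((K + 1) * y) := by gcongr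
  have b5 : T * (K + 1) * y ≤ exp (y * (1 - ε)) * (T * (K + 1) * y) :=
    le_mul_of_one_le_left (by positivity) hz
  linarith

end Pool.Agent.Results.MP_28b5ac_nt.Proof
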